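import Pool.Agent.K1H44.LC.Plan

/-! Project LC, piece TH: `⌊log_q p^u⌋ = ⌊u θ⌋` with an irrational `θ > 0`. -/

set_option autoImplicit false

namespace Pool.Agent.K1H89.LC

open Pool.Agent.K1H44.LC

theorem t_TH : S_TH := by
  rintro p q ⟨hp, hq, hpq⟩
  have hp1 : (1 : ℝ) < p := by exact_mod_cast hp.one_lt
  have hq1 : (1 : ℝ) < q := by exact_mod_cast hq.one_lt
  have hpos : 0 < Real.logb q p := Real.logb_pos hq1 hp1
  refine ⟨Real.logb q p, hpos, ?_, ?_⟩
  · rintro ⟨x, hx⟩
    have hx0 : (0 : ℚ) < x := by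
      have : (0 : ℝ) < (x : ℝ) := by rw [hx]; exact hpos
      exact_mod_cast this
    have hlq : 0 < Real.log q := Real.log_pos hq1
    -- `x = m / n`
    have hn : (0 : ℝ) < (x.den : ℝ) := by exact_mod_cast x.den_pos
    have h1 : (x.den : ℝ) * Real.log p = (x.num : ℝ) * Real.log q := by
      have h2 : (x : ℝ) = (x.num : ℝ) / (x.den : ℝ) := by exact_mod_cast (Rat.num_div_den x).symm
      have h3 : Real.log p / Real.log q = (x.num : ℝ) / (x.den : ℝ) := by
        rw [← h2, hx]; rfl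
      rw [div_eq_div_iff hlq.ne' hn.ne'] at h3
      linarith
    obtain ⟨m, hm⟩ : ∃ m : ℕ, x.num = m := ⟨x.num.toNat, (Int.toNat_of_nonneg (Rat.num_pos.2 hx0).le).symm⟩
    rw [hm] at h1
    have h2 : ((p ^ x.den : ℕ) : ℝ) = ((q ^ m : ℕ) : ℝ) := by
      push_cast
      apply Real.log_injOn_pos
      · rw [Set.mem_Ioi]; positivity
      · rw [Set.mem_Ioi]; positivity
      · rw [Real.log_pow, Real.log_pow, h1]
        push_cast
        ring
    have h3 : p ^ x.den = q ^ m := by exact_mod_cast h2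
    have h4 : p ∣ q ^ m := by
      rw [← h3]
      exact dvd_pow_self p x.den_ne_zero
    exact hpq ((Nat.prime_dvd_prime_iff_eq hp hq).1 (hp.dvd_of_dvd_pow h4))
  · intro u
    have h1 : (u : ℝ) * Real.logb q p = Real.logb q ((p ^ u : ℕ) : ℝ) := by
      push_cast
      rw [Real.logb_pow]
    have h2 := Real.natFloor_logb_natCast q (p ^ u)
    rw [h1]
    have h3 : 0 ≤ Real.logb q ((p ^ u : ℕ) : ℝ) := by
      rw [← h1]; positivity
    unfold L
    rw [← h2, Int.natCast_floor_eq_floor h3]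

end Pool.Agent.K1H89.LC
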